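import Pool.Agent.helper21.OE.SpecC

/-!
# Project OE (MP_2e0e07_nt), row PRC
-/

set_option autoImplicit false

namespace Pool.Agent.OE

open MvPolynomial Matrix

theorem PRC_one {d t : ℤ} (l : Oz d t) : l ∣ (1 : GO d t).val 0 1 := by
  have h : (1 : GO d t).val 0 1 = 0 := by simp
  rw [h]
  exact dvd_zero l

theorem PRC_mul {d t : ℤ} (l : Oz d t) (a b : GO d t) (ha : l ∣ a.val 0 1) (hb : l ∣ b.val 0 1) :
    l ∣ (a * b).val 0 1 := by
  have h : (a * b).val 0 1 = a.val 0 0 * b.val 0 1 + a.val 0 1 * b.val 1 1 := by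
    rw [Units.val_mul, Matrix.mul_apply, Fin.sum_univ_two]
  rw [h]
  exact dvd_add (Dvd.dvd.mul_left hb _) (Dvd.dvd.mul_right ha _)

theorem PRC_inv {d t : ℤ} (l : Oz d t) (a : GO d t) (ha : l ∣ a.val 0 1) : l ∣ (a⁻¹).val 0 1 := by
  have h0 : a.val * (a⁻¹).val = 1 := by
    rw [← Units.val_mul, mul_inv_cancel, Units.val_one]
  have h1 : a.val 0 0 * (a⁻¹).val 0 1 + a.val 0 1 * (a⁻¹).val 1 1 = 0 := by
    have h := congrFun (congrFun h0 0) 1
    rw [Matrix.mul_apply, Fin.sum_univ_two] at h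
    simpa using h
  have h2 : a.val 0 0 * (a⁻¹).val 0 0 + a.val 0 1 * (a⁻¹).val 1 0 = 1 := by
    have h := congrFun (congrFun h0 0) 0
    rw [Matrix.mul_apply, Fin.sum_univ_two] at h
    simpa using h
  obtain ⟨c, hc⟩ := ha
  refine ⟨c * ((a⁻¹).val 0 1 * (a⁻¹).val 1 0 - (a⁻¹).val 1 1 * (a⁻¹).val 0 0), ?_⟩
  have h3 : (a⁻¹).val 0 1 = a.val 0 1 *
      ((a⁻¹).val 0 1 * (a⁻¹).val 1 0 - (a⁻¹).val 1 1 * (a⁻¹).val 0 0) := by
    linear_combination (a⁻¹).val 0 0 * h1 - (a⁻¹).val 0 1 * h2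
  rw [← mul_assoc, ← hc]
  exact h3

/-- row PRC -/
theorem PRC (hCMG : CMG_stmt) : PRC_stmt := by
  intro d t ℓ F hF
  obtain ⟨hm, -, -, hG, -, -, -, -, hs9, -⟩ := hCMG d t
  choose c hc using hG
  have hcm : ∀ a b : GO d t, c (a * b) = c a * c b := by
    intro a b
    apply Units.ext
    rw [hc, Units.val_mul, Units.val_mul, hm, hc, hc]
  let C : GO d t →* GO d t := MonoidHom.mk' c hcm
  have hC : ∀ a : GO d t, C a = c a := fun a => rfl
  choose s hs using fun g : F => (hF (c g.val)).exists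
  let σ : F → F := fun g => ⟨s g, (hs g).1⟩
  have hinj : Function.Injective σ := by
    intro g g' he
    have he' : s g = s g' := congrArg Subtype.val he
    have h1 := (hs g).2
    have h2 := (hs g').2
    rw [← he'] at h2
    have h3 := PRC_mul _ _ _ h1 (PRC_inv _ _ h2)
    have h4 : c g.val * (s g)⁻¹ * (c g'.val * (s g)⁻¹)⁻¹ = c (g.val * g'.val⁻¹) := by
      rw [← hC, ← hC, ← hC, map_mul, map_inv]
      group
    rw [h4, hc] at h3
    have h6 : ((ℓ : ℕ) : Oz d t) ∣ (g.val * g'.val⁻¹).val 0 1 := (hs9 ℓ _).1 h3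
    have h5 : ((ℓ : ℕ) : Oz d t) ∣ (g.val * g.val⁻¹).val 0 1 := by
      rw [mul_inv_cancel]
      exact PRC_one _
    exact Subtype.ext ((hF g.val).unique ⟨g.2, h5⟩ ⟨g'.2, h6⟩)
  refine ⟨Equiv.ofBijective σ (Finite.injective_iff_bijective.1 hinj), ?_⟩
  intro g
  refine ⟨c g.val * (s g)⁻¹, (hs g).2, ?_⟩
  change cm g.val.val = (c g.val * (s g)⁻¹).val * (s g).val
  rw [← Units.val_mul, inv_mul_cancel_right, hc]

end Pool.Agent.OE
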